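import Pool.Agent.W910.SY.Stm
import Pool.Agent.W868.Im

/-!
# Dependent choice in an inner model closed under sequences
-/

set_option autoImplicit false
set_option linter.unreachableTactic false
set_option linter.unusedTactic false

namespace Pool.Agent.W910.SY.T_DC

open Pool.Agent.W868
open ZFSet (pair)

section

variable {W : Set ZFSet.{0}} (hW : IsZFC W)

include hW

/-- A choice function for a relation. -/
theorem exists_fun {X R : ZFSet.{0}} (hX : X ∈ W) (hR : R ∈ W)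
    (h : ∀ x ∈ X, ∃ y ∈ X, pair x y ∈ R) :
    ∃ f ∈ W, ∀ x ∈ X, ∃ y ∈ X, pair x y ∈ R ∧ pair x y ∈ f ∧ ∀ z, pair x z ∈ f → z = y := by
  have hZ := hW.toIsZF
  have hB := hZ.base
  set R' := ZFSet.sep (fun p => p ∈ R) (ZFSet.prod X X) with hR'
  have hR'W : R' ∈ W := hZ.sep_mem (Q := fun p => p ∈ R)
    (Dfn.mem (DfnF.proj 0) (DfnF.const hR)) (hZ.prod_mem hX hX)
  let S : ZFSet.{0} → ZFSet.{0} := fun x => ZFSet.sep (fun p => fs p = x) R'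
  have hS : DfnF W W fun w : Fin 1 → ZFSet.{0} => S (w 0) := by
    refine hZ.sep' (F := fun _ => R') (Q := fun p v => fs p = v 0) (DfnF.const hR'W) ?_
    exact Dfn.eq (hZ.fs' (DfnF.proj 0)) (DfnF.proj 1)
  have hmemS : ∀ x p, p ∈ S x ↔ p ∈ R' ∧ fs p = x := fun x p => ZFSet.mem_sep
  have hmemR' : ∀ x y, pair x y ∈ R' ↔ x ∈ X ∧ y ∈ X ∧ pair x y ∈ R := by
    intro x y
    rw [hR', ZFSet.mem_sep, ZFSet.pair_mem_prod]
    tauto
  obtain ⟨c, hc, h1⟩ := hW.choice (im S X) (hZ.im_mem hX hS) (by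
    intro z hz
    obtain ⟨x, hx, rfl⟩ := mem_im.1 hz
    obtain ⟨y, hy, hxy⟩ := h x hx
    exact ⟨pair x y, (hmemS _ _).2 ⟨(hmemR' _ _).2 ⟨hx, hy, hxy⟩, fs_pair _ _⟩⟩) (by
    intro z hz z' hz' p hp hp'
    obtain ⟨x, hx, rfl⟩ := mem_im.1 hz
    obtain ⟨x', hx', rfl⟩ := mem_im.1 hz'
    have e1 := ((hmemS _ _).1 hp).2
    have e2 := ((hmemS _ _).1 hp').2
    rw [← e1, ← e2])
  refine ⟨ZFSet.sep (fun p => p ∈ c) R', hZ.sep_mem (Q := fun p => p ∈ c)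
    (Dfn.mem (DfnF.proj 0) (DfnF.const hc)) hR'W, fun x hx => ?_⟩
  obtain ⟨p, ⟨hp, hpc⟩, hu⟩ := h1 (S x) (mem_im.2 ⟨x, hx, rfl⟩)
  obtain ⟨hp1, hp2⟩ := (hmemS _ _).1 hp
  have hp3 := (ZFSet.mem_sep.1 (hR' ▸ hp1)).1
  obtain ⟨a, ha, b, hb, rfl⟩ := ZFSet.mem_prod.1 hp3
  rw [fs_pair] at hp2
  subst hp2
  refine ⟨b, hb, ((hmemR' _ _).1 hp1).2.2, ZFSet.mem_sep.2 ⟨hp1, hpc⟩, fun z hz => ?_⟩
  obtain ⟨hz1, hz2⟩ := ZFSet.mem_sep.1 hz
  have h2 := hu (pair a z) ⟨(hmemS _ _).2 ⟨hz1, fs_pair _ _⟩, hz2⟩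
  exact (ZFSet.pair_inj.1 h2).2

/-- The approximations. -/
def App (W : Set ZFSet.{0}) (f x0 t : ZFSet.{0}) : Prop :=
  ∀ q ∈ t, q = pair ∅ x0 ∨ ∃ u ∈ W, ∃ y ∈ W, ∃ y' ∈ W, pair u y ∈ t ∧ pair y y' ∈ f ∧
    q = pair (insert u u) y'

theorem dfn_app {f x0 : ZFSet.{0}} (hf : f ∈ W) (hx0 : x0 ∈ W) :
    Dfn W W fun w : Fin 1 → ZFSet.{0} => App W f x0 (w 0) := by
  have hB := hW.toIsZF.base
  have he := hW.toIsZF.empty_mem
  unfold App
  apply hB.ball (DfnF.proj 0)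
  apply Dfn.or
  · exact Dfn.eq (DfnF.proj 0) (hB.pair' (DfnF.const he) (DfnF.const hx0))
  · apply Dfn.ex
    apply Dfn.ex
    apply Dfn.ex
    apply Dfn.and
    · exact Dfn.mem (hB.pair' (DfnF.proj 2) (DfnF.proj 1)) (DfnF.proj 4)
    apply Dfn.and
    · exact Dfn.mem (hB.pair' (DfnF.proj 1) (DfnF.proj 0)) (DfnF.const hf)
    · exact Dfn.eq (DfnF.proj 3) (hB.pair' (hB.insert' (DfnF.proj 2) (DfnF.proj 2)) (DfnF.proj 0))

end

theorem main : S_DC := by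
  intro M W hW hM hMW hcl X hXM R hRM hne hR
  have hZ := hW.toIsZF
  have hB := hZ.base
  have hX := hMW hXM
  obtain ⟨f, hf, h1⟩ := exists_fun hW hX (hMW hRM) hR
  obtain ⟨x0, hx0⟩ := hne
  choose! F hFX hFR hFf hFu using h1
  let a : ℕ → ZFSet.{0} := fun n => Nat.rec x0 (fun _ x => F x) n
  have ha0 : a 0 = x0 := rfl
  have has : ∀ n, a (n + 1) = F (a n) := fun n => rfl
  have haX : ∀ n, a n ∈ X := by
    intro n
    induction n with
    | zero => exact hx0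
    | succ n ih => rw [has]; exact hFX _ ih
  have haW : ∀ n, a n ∈ W := fun n => hZ.trans _ hX _ (haX n)
  -- the approximations consist of the pairs
  have happ : ∀ t, App W f x0 t → ∀ z y, pair z y ∈ t → ∃ n, z = nat n ∧ y = a n := by
    intro t ht z
    induction z using ZFSet.inductionOn with
    | _ z ih =>
      intro y hy
      rcases ht _ hy with h | ⟨u, hu, y1, hy1, y2, hy2, h3, h4, h5⟩
      · obtain ⟨rfl, rfl⟩ := ZFSet.pair_inj.1 h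
        exact ⟨0, rfl, rfl⟩
      · obtain ⟨rfl, rfl⟩ := ZFSet.pair_inj.1 h5
        obtain ⟨n, rfl, rfl⟩ := ih u (ZFSet.mem_insert u u) y1 h3
        exact ⟨n + 1, rfl, by rw [has]; exact hFu _ (haX n) _ h4⟩
  have hex : ∀ n, ∃ t ∈ W, App W f x0 t ∧ pair (nat n) (a n) ∈ t := by
    intro n
    induction n with
    | zero =>
      refine ⟨{pair ∅ x0}, hZ.single_mem (hZ.pair_mem hZ.empty_mem (haW 0)), ?_, ?_⟩
      · intro q hq
        exact Or.inl (ZFSet.mem_singleton.1 hq)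
      · exact ZFSet.mem_singleton.2 rfl
    | succ n ih =>
      obtain ⟨t, ht, h2, h3⟩ := ih
      refine ⟨insert (pair (nat (n + 1)) (a (n + 1))) t,
        hZ.insert_mem (hZ.pair_mem (hZ.nat_mem (n + 1)) (haW (n + 1))) ht, ?_, ZFSet.mem_insert _ _⟩
      intro q hq
      rcases ZFSet.mem_insert_iff.1 hq with rfl | hq
      · exact Or.inr ⟨nat n, hZ.nat_mem n, a n, haW n, a (n + 1), haW (n + 1),
          ZFSet.mem_insert_of_mem _ h3, by rw [has]; exact hFf _ (haX n), rfl⟩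
      · rcases h2 q hq with h | ⟨u, hu, y1, hy1, y2, hy2, h4, h5, h6⟩
        · exact Or.inl h
        · exact Or.inr ⟨u, hu, y1, hy1, y2, hy2, ZFSet.mem_insert_of_mem _ h4, h5, h6⟩
  set s := ZFSet.sep (fun p => ∃ t ∈ W, App W f x0 t ∧ p ∈ t) (ZFSet.prod ZFSet.omega X) with hs
  have hsW : s ∈ W := by
    refine hZ.sep_mem (Q := fun p => ∃ t ∈ W, App W f x0 t ∧ p ∈ t) ?_
      (hZ.prod_mem hZ.infinity hX)
    apply Dfn.ex
    apply Dfn.and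
    · exact Dfn.comp1 (Q := App W f x0) (dfn_app hW hf (haW 0)) (DfnF.proj 0)
    · exact Dfn.mem (DfnF.proj 1) (DfnF.proj 0)
  have hmem : ∀ z y, pair z y ∈ s ↔ ∃ n, z = nat n ∧ y = a n := by
    intro z y
    rw [hs, ZFSet.mem_sep]
    constructor
    · rintro ⟨-, t, -, h2, h3⟩
      exact happ t h2 z y h3
    · rintro ⟨n, rfl, rfl⟩
      exact ⟨ZFSet.pair_mem_prod.2 ⟨mem_omega_iff.2 ⟨n, rfl⟩, haX n⟩, hex n⟩
  have hfun : ZFSet.IsFunc ZFSet.omega X s := by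
    refine ⟨fun p hp => (ZFSet.mem_sep.1 hp).1, fun z hz => ?_⟩
    obtain ⟨n, rfl⟩ := mem_omega_iff.1 hz
    refine ⟨a n, (hmem _ _).2 ⟨n, rfl, rfl⟩, fun y hy => ?_⟩
    obtain ⟨m, hm, rfl⟩ := (hmem _ _).1 hy
    rw [nat_injective hm]
  refine ⟨s, hcl X hXM s hsW hfun, hfun, fun n x y h2 h3 => ?_⟩
  obtain ⟨m, rfl, rfl⟩ := (hmem _ _).1 h2
  obtain ⟨m', hm', rfl⟩ := (hmem _ _).1 h3
  have h4 : m + 1 = m' := nat_injective hm'
  subst h4
  rw [has]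
  exact hFR _ (haX m)

end Pool.Agent.W910.SY.T_DC
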