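import Pool.Agent.W910.SY.Basic

/-!
# Objects of the ambient universe in the hull of a package
-/

set_option autoImplicit false
set_option linter.unusedSectionVars false

namespace Pool.Agent.W910.SY

open Pool.Agent.W868 Pool.Agent.W868.PName
open ZFSet (pair)

/-- The code of an object: an ordinal. -/
noncomputable def cd {α : Type} (a : α) : ZFSet.{0} :=
  (Ordinal.typein (α := α) WellOrderingRel a).toZFSet

theorem cd_injective {α : Type} : Function.Injective (cd : α → ZFSet.{0}) := by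
  intro a b h
  exact Ordinal.typein_injective WellOrderingRel (Ordinal.toZFSet_injective h)

variable {P : Type} [Preorder P] [OrderTop P]

theorem check_cd_injective {α : Type} {a b : α} (h : (check (cd a) : PName P) = check (cd b)) :
    a = b := cd_injective (check_injective h)

/-- The object `a` is in the hull. -/
def Hul (π : Pkg P) {α : Type} (a : α) : Prop := (check (cd a) : PName P) ∈ π.N

open Classical in
/-- The rule given by an operation on an object and a condition. -/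
noncomputable def r1 {α : Type} (F : α → P → PName P) : Rule P := fun q => match q with
  | ⟨_, .mem s _, v, p⟩ =>
    if h : ∃ a : α, tv v s = check (cd a) then (F h.choose p, p) else (emp, p)
  | q => (emp, q.p)

open Classical in
/-- The rule given by an operation on two objects and a condition. -/
noncomputable def r2 {α β : Type} (F : α → β → P → PName P) : Rule P := fun q => match q with
  | ⟨_, .mem s t, v, p⟩ =>
    if h : (∃ a : α, tv v s = check (cd a)) ∧ ∃ b : β, tv v t = check (cd b) then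
      (F h.1.choose h.2.choose p, p) else (emp, p)
  | q => (emp, q.p)

/-- The rule given by an operation on a name and a condition. -/
def r0 (F : PName P → P → PName P) : Rule P := fun q => match q with
  | ⟨_, .mem s _, v, p⟩ => (F (tv v s) p, p)
  | q => (emp, q.p)

/-- The package is closed under the rules in `R`. -/
def ClR (R : Set (Rule P)) (π : Pkg P) : Prop :=
  ∀ ρ ∈ R, ∀ q : Query P, q.In π.N π.C → (ρ q).1 ∈ π.N ∧ (ρ q).2 ∈ π.C

section

variable {R : Set (Rule P)} {π : Pkg P} (hR : ClR R π)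

include hR

theorem r1_mem {α : Type} {F : α → P → PName P} (hF : r1 F ∈ R) {a : α} (ha : Hul π a) (k : ℕ) :
    F a (π.g k) ∈ π.N := by
  have h1 := (hR _ hF _ (query2 ha ha (π.gC k))).1
  have h2 : ∃ b : α, tv (Fin.elim0 : Fin 0 → PName P) (Sum.inr (check (cd a))) = check (cd b) :=
    ⟨a, rfl⟩
  unfold r1 at h1
  simp only [dif_pos h2] at h1
  have h3 : a = h2.choose := check_cd_injective (P := P) h2.choose_spec
  rw [← h3] at h1
  exact h1

theorem r2_mem {α β : Type} {F : α → β → P → PName P} (hF : r2 F ∈ R) {a : α} {b : β}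
    (ha : Hul π a) (hb : Hul π b) (k : ℕ) : F a b (π.g k) ∈ π.N := by
  have h1 := (hR _ hF _ (query2 ha hb (π.gC k))).1
  have h2 : (∃ a' : α, tv (Fin.elim0 : Fin 0 → PName P) (Sum.inr (check (cd a))) =
      check (cd a')) ∧ ∃ b' : β, tv (Fin.elim0 : Fin 0 → PName P) (Sum.inr (check (cd b))) =
      check (cd b') := ⟨⟨a, rfl⟩, ⟨b, rfl⟩⟩
  unfold r2 at h1
  simp only [dif_pos h2] at h1
  have h3 : a = h2.1.choose := check_cd_injective (P := P) h2.1.choose_spec
  have h4 : b = h2.2.choose := check_cd_injective (P := P) h2.2.choose_spec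
  rw [← h3, ← h4] at h1
  exact h1

theorem r0_mem {F : PName P → P → PName P} (hF : r0 F ∈ R) {x : PName P} (hx : x ∈ π.N)
    (k : ℕ) : F x (π.g k) ∈ π.N := (hR _ hF _ (query2 hx hx (π.gC k))).1

end

theorem emp_mem (π : Pkg P) : (emp : PName P) ∈ π.N :=
  (π.closed rPair (by simp [baseRules]) _ (query2e π.om π.om (π.gC 0))).1

theorem el_nm {A : Set P} {z : PName P} {c : P} : El (Sys.nm P A) z c ↔ z = emp ∧ c ∈ A := by
  rw [Sys.nm, el_mk]
  constructor
  · rintro ⟨i, rfl, rfl⟩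
    exact ⟨rfl, i.2⟩
  · rintro ⟨rfl, h⟩
    exact ⟨⟨c, h⟩, rfl, rfl⟩

/-- Genericity for a set of conditions. -/
theorem gen_nm (π : Pkg P) {A : Set P} (hA : Sys.nm P A ∈ π.N) :
    ∃ k, (∃ r ∈ A, π.g k ≤ r) ∨ ∀ r ≤ π.g k, r ∉ A := by
  obtain ⟨k, h1, h2⟩ := π.gen ⟨0, .mem (Sum.inr emp) (Sum.inr (Sys.nm P A)), Fin.elim0, ⊤⟩
    ⟨⟨tOver_inr.2 (emp_mem π), tOver_inr.2 hA⟩, fun i => i.elim0⟩
  rcases h1 with h1 | h1
  · obtain ⟨z, -, c, hz, hc, -⟩ := h2 h1
    exact ⟨k, Or.inl ⟨c, (el_nm.1 hz).2, hc⟩⟩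
  · refine ⟨k, Or.inr fun r hr hrA => h1 r hr ?_⟩
    change Fmem emp (Sys.nm P A) r
    rw [fmem_iff]
    exact fun q hq => ⟨q, le_rfl, emp, r, el_nm.2 ⟨rfl, hrA⟩, hq, Feq.refl _ _⟩

/-- The generic sequence meets dense sets. -/
theorem gen_dense (π : Pkg P) {A : Set P} (hA : Sys.nm P A ∈ π.N) {m : ℕ}
    (hd : ∀ q ≤ π.g m, ∃ r ≤ q, r ∈ A) : ∃ k ≥ m, ∃ r ∈ A, π.g k ≤ r := by
  obtain ⟨k, ⟨r, hr, hk⟩ | h⟩ := gen_nm π hA
  · exact ⟨max k m, le_max_right _ _, r, hr, (π.g_le_left k m).trans hk⟩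
  · obtain ⟨r, hr, hrA⟩ := hd (π.g (max k m)) (π.g_le_right k m)
    exact absurd hrA (h r (hr.trans (π.g_le_left k m)))

theorem gen_dense' (π : Pkg P) {A : Set P} (hA : Sys.nm P A ∈ π.N) {m : ℕ}
    (hdc : ∀ r ∈ A, ∀ q ≤ r, q ∈ A) (hd : ∀ q ≤ π.g m, ∃ r ≤ q, r ∈ A) :
    ∃ k ≥ m, π.g k ∈ A := by
  obtain ⟨k, hk, r, hr, h⟩ := gen_dense π hA hd
  exact ⟨k, hk, hdc r hr _ h⟩

end Pool.Agent.W910.SY
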