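import Pool.Agent.W910.SY.Defs

/-!
# Symmetric submodels of generic extensions: the steps
-/

set_option autoImplicit false

namespace Pool.Agent.W910.SY

open Pool.Agent.W868 Pool.Agent.W868.PName

/-- Dependent choice. -/
def S_DC : Prop := ∀ M W : Set ZFSet.{0}, IsZFC W → IsZF M → M ⊆ W →
  (∀ X ∈ M, ∀ s ∈ W, ZFSet.IsFunc ZFSet.omega X s → s ∈ M) → DC M

/-- The truth lemma for the symmetric submodel. -/
def S_TRU : Prop := ∀ (P : Type) [Preorder P] [OrderTop P] (S : Sys P) (π : Pkg P), S.Cld π →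
  ∀ (n : ℕ) (φ : Fml (PName P) n), φ.Over {x | x ∈ π.N ∧ S.HS x} → ∀ v : Fin n → PName P,
    (∀ i, v i ∈ π.N ∧ S.HS (v i)) →
      (Sat (S.Ms π) π.val φ (π.val ∘ v) ↔ ∃ k, S.FS φ v (π.g k))

/-- Separation is symmetric. -/
def S_SEP : Prop := ∀ (P : Type) [Preorder P] [OrderTop P] (S : Sys P) (n : ℕ)
  (φ : Fml (PName P) (n + 1)) (v : Fin n → PName P) (x : PName P), φ.Over {x | S.HS x} →
    (∀ i, S.HS (v i)) → S.HS x → S.HS (S.sepS φ v x)

/-- The symmetric submodel is a model of ZF. -/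
def S_ZF : Prop := ∀ (P : Type) [Preorder P] [OrderTop P] (S : Sys P) (π : Pkg P), S.Cld π →
  IsZF (S.Ms π)

/-- The symmetric submodel contains all sequences of its elements. -/
def S_CLO : Prop := ∀ (P : Type) [Preorder P] [OrderTop P] (S : Sys P), S.Dst → ∀ π : Pkg P,
  S.Cld π → ∀ X ∈ S.Ms π, ∀ s ∈ π.W, ZFSet.IsFunc ZFSet.omega X s → s ∈ S.Ms π

end Pool.Agent.W910.SY
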